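import Pool.Agent.V5helper49.IR.Stm

/-!
# Project IR (helper49): jobs ADV and REP
-/

set_option autoImplicit false

namespace Pool.Agent.V5helper6.IR

open Finset Filter Topology
open Pool.Agent.V5helper49.IR

theorem pow_small (u v w : ℝ) (hu : u < w) (hv : v < w) :
    ∀ᶠ N : ℕ in atTop, (N : ℝ) ^ u + (N : ℝ) ^ v < (N : ℝ) ^ w := by
  have h1 : Tendsto (fun N : ℕ => (N : ℝ) ^ (-(w - u)) + (N : ℝ) ^ (-(w - v))) atTop (𝓝 (0 + 0)) := by
    apply Tendsto.add
    · exact (tendsto_rpow_neg_atTop (by linarith)).comp tendsto_natCast_atTop_atTop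
    · exact (tendsto_rpow_neg_atTop (by linarith)).comp tendsto_natCast_atTop_atTop
  rw [add_zero] at h1
  filter_upwards [h1.eventually_lt_const (show (0 : ℝ) < 1 by norm_num), eventually_ge_atTop 1] with N h2 h3
  have hN : (0 : ℝ) < N := by exact_mod_cast h3
  have h4 : 0 < (N : ℝ) ^ w := Real.rpow_pos_of_pos hN w
  calc (N : ℝ) ^ u + (N : ℝ) ^ v = ((N : ℝ) ^ (-(w - u)) + (N : ℝ) ^ (-(w - v))) * (N : ℝ) ^ w := by
        rw [add_mul, ← Real.rpow_add hN, ← Real.rpow_add hN]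
        congr 2 <;> ring
    _ < 1 * (N : ℝ) ^ w := mul_lt_mul_of_pos_right h2 h4
    _ = (N : ℝ) ^ w := one_mul _

theorem t_ADV : S_ADV := by
  classical
  intro η κ θ hη hκ hθ A E hA hE hcon
  obtain ⟨n₀, hn₀⟩ := eventually_atTop.1 hcon
  have h1 : ∀ᶠ N : ℕ in atTop, (n₀ : ℝ) ≤ η * N / 4 := by
    have : Tendsto (fun N : ℕ => η * (N : ℝ) / 4) atTop atTop :=
      (tendsto_natCast_atTop_atTop.const_mul_atTop hη).atTop_div_const (by norm_num)
    exact this.eventually_ge_atTop _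
  have h2 := pow_small (θ + (1 / 2 + κ)) (θ + θ) (1 - κ) (by linarith) (by linarith)
  obtain ⟨N, ⟨hN1, hN2⟩, hN3, hN4, hN5, hN6⟩ :=
    (hA.and_eventually (hE.and (h1.and (h2.and (eventually_ge_atTop 1))))).exists
  have hN0 : (0 : ℝ) < N := by exact_mod_cast hN6
  have hsub : ((range (N + 1)).filter (fun n : ℕ => η * N / 4 < (n : ℝ) ∧ ∀ a ∈ A, ∀ b ∈ A, a + b ≠ n)) ⊆
      (((range (N + 1)).filter (fun k => k ∈ E)) ×ˢ (((range (N + 1)).filter (fun k => k ∈ A)) ∪
        ((range (N + 1)).filter (fun k => k ∈ E)))).image (fun x : ℕ × ℕ => x.1 + x.2) := by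
    intro n hn
    obtain ⟨hn1, hn2, hn3⟩ := mem_filter.1 hn
    have hn4 : n₀ ≤ n := by
      have : (n₀ : ℝ) ≤ n := hN4.trans hn2.le
      exact_mod_cast this
    obtain ⟨a, ha, b, hb, hab⟩ := hn₀ n hn4
    rw [mem_range] at hn1
    rw [mem_image]
    have key : ∀ u v : ℕ, u ∈ E → v ∈ A ∪ E → u + v = n → ∃ x ∈ ((range (N + 1)).filter (fun k => k ∈ E)) ×ˢ
        (((range (N + 1)).filter (fun k => k ∈ A)) ∪ ((range (N + 1)).filter (fun k => k ∈ E))), x.1 + x.2 = n := by
      intro u v hu hv huv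
      refine ⟨(u, v), ?_, huv⟩
      rw [mem_product]
      refine ⟨mem_filter.2 ⟨mem_range.2 (by omega), hu⟩, ?_⟩
      rw [mem_union]
      rcases hv with hv | hv
      · exact Or.inl (mem_filter.2 ⟨mem_range.2 (by omega), hv⟩)
      · exact Or.inr (mem_filter.2 ⟨mem_range.2 (by omega), hv⟩)
    rcases ha with ha' | ha'
    · rcases hb with hb' | hb'
      · exact absurd hab (hn3 a ha' b hb')
      · exact key b a hb' (Or.inl ha') (by omega)
    · exact key a b ha' hb hab
  have hcard : ((((range (N + 1)).filter (fun n : ℕ => η * N / 4 < (n : ℝ) ∧ ∀ a ∈ A, ∀ b ∈ A, a + b ≠ n)).card : ℕ) : ℝ) ≤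
      (N : ℝ) ^ (θ + (1 / 2 + κ)) + (N : ℝ) ^ (θ + θ) := by
    have h3 := (card_le_card hsub).trans (card_image_le.trans (le_of_eq (card_product _ _)))
    have h4 : (((range (N + 1)).filter (fun n : ℕ => η * N / 4 < (n : ℝ) ∧ ∀ a ∈ A, ∀ b ∈ A, a + b ≠ n)).card) ≤
        ((range (N + 1)).filter (fun k => k ∈ E)).card * (((range (N + 1)).filter (fun k => k ∈ A)).card +
          ((range (N + 1)).filter (fun k => k ∈ E)).card) :=
      h3.trans (Nat.mul_le_mul_left _ (card_union_le _ _))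
    have hE0 : (0 : ℝ) ≤ (((range (N + 1)).filter (fun k => k ∈ E)).card : ℝ) := Nat.cast_nonneg _
    have hA0 : (0 : ℝ) ≤ (((range (N + 1)).filter (fun k => k ∈ A)).card : ℝ) := Nat.cast_nonneg _
    calc ((((range (N + 1)).filter (fun n : ℕ => η * N / 4 < (n : ℝ) ∧ ∀ a ∈ A, ∀ b ∈ A, a + b ≠ n)).card : ℕ) : ℝ)
        ≤ ((((range (N + 1)).filter (fun k => k ∈ E)).card * (((range (N + 1)).filter (fun k => k ∈ A)).card +
          ((range (N + 1)).filter (fun k => k ∈ E)).card) : ℕ) : ℝ) := by exact_mod_cast h4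
      _ = (((range (N + 1)).filter (fun k => k ∈ E)).card : ℝ) * ((((range (N + 1)).filter (fun k => k ∈ A)).card : ℝ) +
          (((range (N + 1)).filter (fun k => k ∈ E)).card : ℝ)) := by push_cast; ring
      _ ≤ (N : ℝ) ^ θ * ((N : ℝ) ^ (1 / 2 + κ) + (N : ℝ) ^ θ) := by
          apply mul_le_mul _ _ (by positivity) (by positivity)
          · convert hN3
          · apply add_le_add
            · convert hN2
            · convert hN3
      _ = (N : ℝ) ^ (θ + (1 / 2 + κ)) + (N : ℝ) ^ (θ + θ) := by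
          rw [Real.rpow_add hN0 θ (1 / 2 + κ), Real.rpow_add hN0 θ θ, mul_add]
  have hN1' : (N : ℝ) ^ (1 - κ) ≤ ((((range (N + 1)).filter (fun n : ℕ => η * N / 4 < (n : ℝ) ∧ ∀ a ∈ A, ∀ b ∈ A, a + b ≠ n)).card : ℕ) : ℝ) := by
    convert hN1
  linarith

theorem t_REP : S_REP := by
  classical
  intro c hc A hA
  by_contra hcon
  rw [not_frequently] at hcon
  obtain ⟨n₁, hn₁⟩ := eventually_atTop.1 hcon
  set r : ℕ → ℝ := fun n => ({x : ℕ × ℕ | x.1 ∈ A ∧ x.2 ∈ A ∧ x.1 + x.2 = n}.ncard : ℝ) with hr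
  have hr0 : ∀ n, 0 ≤ r n := fun n => Nat.cast_nonneg _
  set K : ℝ := ∑ n ∈ range n₁, r n with hK
  have hK0 : 0 ≤ K := sum_nonneg (fun n _ => hr0 n)
  have hlog : Tendsto (fun N : ℕ => Real.log (N : ℝ)) atTop atTop :=
    Real.tendsto_log_atTop.comp tendsto_natCast_atTop_atTop
  have hNl : Tendsto (fun N : ℕ => (N : ℝ) * Real.log (N : ℝ)) atTop atTop :=
    tendsto_natCast_atTop_atTop.atTop_mul_atTop₀ hlog
  obtain ⟨N, hN1, hN2, hN3, hN4⟩ := (hA.and ((hlog.eventually_ge_atTop (5 * Real.log 2)).and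
    ((hNl.eventually_gt_atTop (4 * K / c ^ 2)).and (eventually_ge_atTop 2)))).exists
  have hN0 : (2 : ℝ) ≤ N := by exact_mod_cast hN4
  have hl2 : 0 < Real.log 2 := Real.log_pos (by norm_num)
  have hlN : 0 < Real.log N := by linarith
  have hfin : ∀ n : ℕ, ({x : ℕ × ℕ | x.1 ∈ A ∧ x.2 ∈ A ∧ x.1 + x.2 = n}).Finite := by
    intro n
    apply ((range (n + 1)) ×ˢ (range (n + 1))).finite_toSet.subset
    rintro ⟨x, y⟩ ⟨_, _, h⟩
    simp only at h
    rw [mem_coe, mem_product, mem_range, mem_range]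
    exact ⟨by simp only; omega, by simp only; omega⟩
  set AN := (range (N + 1)).filter (fun k => k ∈ A) with hAN
  have hN1' : c * Real.sqrt (N * Real.log N) ≤ (AN.card : ℝ) := by
    convert hN1
  have hsq : c ^ 2 * (N * Real.log N) ≤ ((AN ×ˢ AN).card : ℝ) := by
    rw [card_product]
    push_cast
    have h1 : 0 ≤ c * Real.sqrt (N * Real.log N) := by positivity
    calc c ^ 2 * (N * Real.log N) = (c * Real.sqrt (N * Real.log N)) * (c * Real.sqrt (N * Real.log N)) := by
          rw [mul_mul_mul_comm, Real.mul_self_sqrt (by positivity)]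
          ring
      _ ≤ (AN.card : ℝ) * AN.card := mul_le_mul hN1' hN1' h1 (Nat.cast_nonneg _)
  have hcnt : ((AN ×ˢ AN).card : ℝ) ≤ ∑ n ∈ range (2 * N + 1), (if n < n₁ then r n else c ^ 2 / 4 * Real.log (2 * N)) := by
    rw [card_eq_sum_card_fiberwise (f := fun x : ℕ × ℕ => x.1 + x.2) (t := range (2 * N + 1)) (by
      intro x hx
      obtain ⟨h1, h2⟩ := mem_product.1 hx
      have h3 := mem_range.1 (mem_filter.1 h1).1
      have h4 := mem_range.1 (mem_filter.1 h2).1
      show x.1 + x.2 ∈ ((range (2 * N + 1) : Finset ℕ) : Set ℕ)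
      rw [mem_coe, mem_range]
      omega)]
    push_cast
    apply sum_le_sum
    intro n hn
    have h5 : (((AN ×ˢ AN).filter (fun x : ℕ × ℕ => x.1 + x.2 = n)).card : ℝ) ≤ r n := by
      rw [← Set.ncard_coe_finset]
      simp only [hr]
      have h6 : (((AN ×ˢ AN).filter (fun x : ℕ × ℕ => x.1 + x.2 = n) : Finset (ℕ × ℕ)) : Set (ℕ × ℕ)) ⊆
          {x : ℕ × ℕ | x.1 ∈ A ∧ x.2 ∈ A ∧ x.1 + x.2 = n} := by
        intro x hx
        obtain ⟨h7, h8⟩ := mem_filter.1 (mem_coe.1 hx)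
        obtain ⟨h9, h10⟩ := mem_product.1 h7
        exact ⟨(mem_filter.1 h9).2, (mem_filter.1 h10).2, h8⟩
      exact_mod_cast Set.ncard_le_ncard h6 (hfin n)
    refine h5.trans ?_
    split_ifs with h6
    · exact le_rfl
    · have h7 := hn₁ n (by omega)
      rw [not_le] at h7
      have h8 : Real.log n ≤ Real.log (2 * N) := by
        rcases Nat.eq_zero_or_pos n with h0 | h0
        · rw [h0, Nat.cast_zero, Real.log_zero]
          apply Real.log_nonneg
          linarith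
        · apply Real.log_le_log (by exact_mod_cast h0)
          rw [mem_range] at hn
          exact_mod_cast (by omega : n ≤ 2 * N)
      calc r n ≤ c ^ 2 / 4 * Real.log n := h7.le
        _ ≤ c ^ 2 / 4 * Real.log (2 * N) := mul_le_mul_of_nonneg_left h8 (by positivity)
  have hl2N : Real.log (2 * N) = Real.log 2 + Real.log N := Real.log_mul (by norm_num) (by positivity)
  have hl0 : 0 ≤ Real.log (2 * N) := by rw [hl2N]; linarith
  have hsum : ∑ n ∈ range (2 * N + 1), (if n < n₁ then r n else c ^ 2 / 4 * Real.log (2 * N)) ≤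
      K + (2 * N + 1) * (c ^ 2 / 4 * Real.log (2 * N)) := by
    calc ∑ n ∈ range (2 * N + 1), (if n < n₁ then r n else c ^ 2 / 4 * Real.log (2 * N))
        ≤ ∑ n ∈ range (2 * N + 1), ((if n < n₁ then r n else 0) + c ^ 2 / 4 * Real.log (2 * N)) := by
          apply sum_le_sum
          intro n _
          have : 0 ≤ c ^ 2 / 4 * Real.log (2 * N) := by positivity
          split_ifs
          · linarith
          · linarith
      _ = (∑ n ∈ range (2 * N + 1), (if n < n₁ then r n else 0)) + (2 * N + 1) * (c ^ 2 / 4 * Real.log (2 * N)) := by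
          rw [sum_add_distrib, sum_const, card_range, nsmul_eq_mul]
          push_cast
          ring
      _ ≤ K + (2 * N + 1) * (c ^ 2 / 4 * Real.log (2 * N)) := by
          apply add_le_add_left
          rw [← sum_filter]
          apply sum_le_sum_of_subset_of_nonneg
          · intro n hn
            exact mem_range.2 (mem_filter.1 hn).2
          · intro n _ _
            exact hr0 n
  have h1 : (2 * (N : ℝ) + 1) * Real.log (2 * N) ≤ 3 * (N * Real.log N) := by
    have e1 : 2 * (N : ℝ) + 1 ≤ 5 / 2 * N := by linarith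
    have e2 : Real.log (2 * N) ≤ 6 / 5 * Real.log N := by rw [hl2N]; linarith
    calc (2 * (N : ℝ) + 1) * Real.log (2 * N) ≤ (5 / 2 * N) * (6 / 5 * Real.log N) :=
          mul_le_mul e1 e2 hl0 (by positivity)
      _ = 3 * (N * Real.log N) := by ring
  have h2 : (2 * (N : ℝ) + 1) * (c ^ 2 / 4 * Real.log (2 * N)) ≤ 3 / 4 * (c ^ 2 * (N * Real.log N)) := by
    calc (2 * (N : ℝ) + 1) * (c ^ 2 / 4 * Real.log (2 * N)) = c ^ 2 / 4 * ((2 * (N : ℝ) + 1) * Real.log (2 * N)) := by ring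
      _ ≤ c ^ 2 / 4 * (3 * (N * Real.log N)) := mul_le_mul_of_nonneg_left h1 (by positivity)
      _ = 3 / 4 * (c ^ 2 * (N * Real.log N)) := by ring
  have h3 : 4 * K < c ^ 2 * (N * Real.log N) := by
    rw [div_lt_iff₀ (by positivity)] at hN3
    linarith
  linarith

end Pool.Agent.V5helper6.IR
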